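import Pool.Agent.Helper57.Env.Stmts

/-!
# MP_07d5fa_co, packet H: the recursion (random sampling)
-/

namespace Pool.Agent.Helper77.Env

open Finset

/-- sampling identity -/
lemma samp {ι : Type} [DecidableEq ι] (p : ℝ) (R T L : Finset ι) (hT : T ⊆ R) (hL : L ⊆ R)
    (hTL : Disjoint T L) :
    ∑ S ∈ R.powerset, (if T ⊆ S ∧ Disjoint S L then p ^ S.card * (1 - p) ^ (R.card - S.card)
      else 0) = p ^ T.card * (1 - p) ^ L.card := by
  have h := Finset.prod_add (fun i => if i ∈ L then (0 : ℝ) else p)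
    (fun i => if i ∈ T then (0 : ℝ) else 1 - p) R
  have h1 : ∏ i ∈ R, ((if i ∈ L then (0 : ℝ) else p) + (if i ∈ T then (0 : ℝ) else 1 - p)) =
      p ^ T.card * (1 - p) ^ L.card := by
    have h2 : ∀ i ∈ R, ((if i ∈ L then (0 : ℝ) else p) + (if i ∈ T then (0 : ℝ) else 1 - p)) =
        (if i ∈ T then p else 1) * (if i ∈ L then 1 - p else 1) := by
      intro i _
      by_cases hiT : i ∈ T
      · have hiL : i ∉ L := Finset.disjoint_left.1 hTL hiT
        simp [hiT, hiL]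
      · by_cases hiL : i ∈ L
        · simp [hiT, hiL]
        · simp [hiT, hiL]
    rw [Finset.prod_congr rfl h2, Finset.prod_mul_distrib, Finset.prod_ite_mem,
      Finset.prod_ite_mem, Finset.inter_eq_right.2 hT, Finset.inter_eq_right.2 hL,
      Finset.prod_const, Finset.prod_const]
  rw [h1] at h
  rw [h]
  refine Finset.sum_congr rfl (fun S hS => ?_)
  have hSR := Finset.mem_powerset.1 hS
  split_ifs with hc
  · have h3 : ∏ i ∈ S, (if i ∈ L then (0 : ℝ) else p) = p ^ S.card := by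
      rw [Finset.prod_congr rfl (fun i hi => if_neg (Finset.disjoint_left.1 hc.2 hi)),
        Finset.prod_const]
    have h4 : ∏ i ∈ R \ S, (if i ∈ T then (0 : ℝ) else 1 - p) = (1 - p) ^ (R.card - S.card) := by
      rw [Finset.prod_congr rfl (fun i hi => if_neg (fun hiT =>
        (Finset.mem_sdiff.1 hi).2 (hc.1 hiT))), Finset.prod_const,
        Finset.card_sdiff_of_subset hSR]
    rw [h3, h4]
  · rw [not_and_or] at hc
    rcases hc with hc | hc
    · obtain ⟨i, hiT, hiS⟩ := Finset.not_subset.1 hc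
      have h5 : ∏ i ∈ R \ S, (if i ∈ T then (0 : ℝ) else 1 - p) = 0 :=
        Finset.prod_eq_zero (Finset.mem_sdiff.2 ⟨hT hiT, hiS⟩) (if_pos hiT)
      rw [h5, mul_zero]
    · obtain ⟨i, hiS, hiL⟩ := Finset.not_disjoint_iff.1 hc
      have h5 : ∏ i ∈ S, (if i ∈ L then (0 : ℝ) else p) = 0 :=
        Finset.prod_eq_zero hiS (if_pos hiL)
      rw [h5, zero_mul]

/-- moment bound -/
lemma moment {ι : Type} (R : Finset ι) (p ε : ℝ) (hp : 0 < p) (hp1 : p ≤ 1)
    (hε : 0 < ε) (hε1 : ε ≤ 1) (hr : 1 ≤ R.card * p) :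
    ∑ S ∈ R.powerset, p ^ S.card * (1 - p) ^ (R.card - S.card) * (S.card : ℝ) ^ (2 + ε) ≤
      Real.exp 7 * (R.card * p) ^ (2 + ε) := by
  set lam : ℝ := R.card * p with hlam
  have hl0 : 0 < lam := by linarith
  set t : ℝ := (1 + 1 / lam) ^ 3 with ht
  have hx : ∀ x : ℕ, (x : ℝ) ^ (2 + ε) ≤ lam ^ (2 + ε) * t ^ x := by
    intro x
    have h1 : (x : ℝ) ^ (2 + ε) = lam ^ (2 + ε) * (x / lam) ^ (2 + ε) := by
      rw [← Real.mul_rpow hl0.le (by positivity), mul_div_cancel₀ _ hl0.ne']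
    rw [h1]
    refine mul_le_mul_of_nonneg_left ?_ (by positivity)
    have hy : (0 : ℝ) ≤ x / lam := by positivity
    have h2 : (x / lam) ^ (2 + ε) ≤ (1 + x / lam) ^ (2 + ε) :=
      Real.rpow_le_rpow hy (by linarith) (by linarith)
    have h3 : (1 + x / lam) ^ (2 + ε) ≤ (1 + x / lam) ^ (3 : ℝ) :=
      Real.rpow_le_rpow_of_exponent_le (by linarith) (by linarith)
    have h4 : (1 + x / lam) ^ (3 : ℝ) = (1 + x / lam) ^ 3 := by
      rw [← Real.rpow_natCast]
      norm_num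
    have h5 : 1 + x / lam ≤ (1 + 1 / lam) ^ x := by
      have h6 := one_add_mul_le_pow (show (-2 : ℝ) ≤ 1 / lam by
        have : (0 : ℝ) ≤ 1 / lam := by positivity
        linarith) x
      have h7 : 1 + (x : ℝ) * (1 / lam) = 1 + x / lam := by ring
      rw [← h7]
      exact h6
    calc (x / lam) ^ (2 + ε) ≤ (1 + x / lam) ^ 3 := by
          rw [← h4]
          exact h2.trans h3
      _ ≤ ((1 + 1 / lam) ^ x) ^ 3 := pow_le_pow_left₀ (by positivity) h5 3
      _ = t ^ x := by rw [ht, ← pow_mul, ← pow_mul, mul_comm]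
  have hw : ∀ S ∈ R.powerset, p ^ S.card * (1 - p) ^ (R.card - S.card) * (S.card : ℝ) ^ (2 + ε) ≤
      lam ^ (2 + ε) * ((p * t) ^ S.card * (1 - p) ^ (R.card - S.card)) := by
    intro S _
    have h1 : 0 ≤ p ^ S.card * (1 - p) ^ (R.card - S.card) :=
      mul_nonneg (by positivity) (pow_nonneg (by linarith) _)
    calc _ ≤ p ^ S.card * (1 - p) ^ (R.card - S.card) * (lam ^ (2 + ε) * t ^ S.card) :=
          mul_le_mul_of_nonneg_left (hx S.card) h1
      _ = _ := by rw [mul_pow]; ring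
  refine (Finset.sum_le_sum hw).trans ?_
  rw [← Finset.mul_sum, Finset.sum_pow_mul_eq_add_pow, mul_comm (Real.exp 7)]
  refine mul_le_mul_of_nonneg_left ?_ (by positivity)
  have ht1 : p * t + (1 - p) = 1 + p * (t - 1) := by ring
  have ht0 : 1 ≤ t := by
    rw [ht]
    have : (0 : ℝ) ≤ 1 / lam := by positivity
    exact one_le_pow₀ (by linarith)
  rw [ht1]
  have h1 : 1 + p * (t - 1) ≤ Real.exp (p * (t - 1)) := by
    have := Real.add_one_le_exp (p * (t - 1))
    linarith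
  have h0 : 0 ≤ 1 + p * (t - 1) := by
    have : 0 ≤ p * (t - 1) := mul_nonneg hp.le (by linarith)
    linarith
  refine (pow_le_pow_left₀ h0 h1 R.card).trans ?_
  rw [← Real.exp_nat_mul]
  refine Real.exp_le_exp.2 ?_
  have h2 : (R.card : ℝ) * (p * (t - 1)) = lam * (t - 1) := by rw [hlam]; ring
  rw [h2]
  have hi : 1 / lam ≤ 1 := by
    rw [div_le_one hl0]
    exact hr
  have hi0 : 0 < 1 / lam := by positivity
  have h3 : lam * (t - 1) = 3 + 3 * (1 / lam) + (1 / lam) ^ 2 := by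
    rw [ht]
    field_simp
    ring
  rw [h3]
  nlinarith

/-- a lower bound for `(1 - 1/q)^q` -/
lemma pow_lower {q : ℕ} (hq : 2 ≤ q) : 1 / 8 ≤ (1 - 1 / (q : ℝ)) ^ q := by
  have hq' : (2 : ℝ) ≤ q := by exact_mod_cast hq
  have h1 : (1 - 1 / (q : ℝ)) = (1 + 1 / ((q : ℝ) - 1))⁻¹ := by
    have e1 : (q : ℝ) - 1 ≠ 0 := by linarith
    have e2 : (q : ℝ) ≠ 0 := by linarith
    have e3 : 1 + 1 / ((q : ℝ) - 1) = q / ((q : ℝ) - 1) := by
      field_simp
      ring
    rw [e3, inv_div, sub_div, div_self e2]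
  rw [h1, inv_pow, one_div]
  have h2 : 1 + 1 / ((q : ℝ) - 1) ≤ Real.exp (1 / ((q : ℝ) - 1)) := by
    have := Real.add_one_le_exp (1 / ((q : ℝ) - 1))
    linarith
  have h3 : 0 < 1 + 1 / ((q : ℝ) - 1) := by
    have : 0 < 1 / ((q : ℝ) - 1) := one_div_pos.2 (by linarith)
    linarith
  refine inv_anti₀ (by positivity) ?_
  refine (pow_le_pow_left₀ h3.le h2 q).trans ?_
  rw [← Real.exp_nat_mul]
  have h4 : (q : ℝ) * (1 / ((q : ℝ) - 1)) ≤ 2 := by
    rw [mul_one_div, div_le_iff₀ (by linarith)]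
    linarith
  refine (Real.exp_le_exp.2 h4).trans ?_
  have h5 : Real.exp 2 = Real.exp 1 * Real.exp 1 := by
    rw [← Real.exp_add]
    norm_num
  have h6 := Real.exp_one_lt_d9
  have h7 := Real.exp_pos 1
  rw [h5]
  nlinarith

/-- the number of configurations inside `R` with at most `k` conflicts -/
noncomputable def N {ι Z : Type} [DecidableEq ι] (O : Finset Z) (T B : Z → Finset ι)
    (R : Finset ι) (k : ℕ) : ℕ :=
  (O.filter (fun z => T z ⊆ R ∧ (B z ∩ R).card ≤ k)).card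

/-- lower bound for the expected number of free configurations in a random sample -/
lemma sample_lower {ι Z : Type} [DecidableEq ι] (O : Finset Z) (T B : Z → Finset ι)
    (hO : ∀ z ∈ O, (T z).card = 3 ∧ Disjoint (T z) (B z)) (R : Finset ι) {q : ℕ} (hq : 2 ≤ q) :
    (N O T B R q : ℝ) * ((1 / (q : ℝ)) ^ 3 * (1 / 8)) ≤
      ∑ S ∈ R.powerset, (1 / (q : ℝ)) ^ S.card * (1 - 1 / (q : ℝ)) ^ (R.card - S.card) *
        (N O T B S 0 : ℝ) := by
  have hq' : (2 : ℝ) ≤ q := by exact_mod_cast hq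
  set p : ℝ := 1 / (q : ℝ) with hp
  have hp0 : 0 < p := by rw [hp]; positivity
  have hp1 : p ≤ 1 := by
    rw [hp, div_le_one (by linarith)]
    linarith
  have hN : ∀ S : Finset ι, (N O T B S 0 : ℝ) =
      ∑ z ∈ O, (if T z ⊆ S ∧ Disjoint S (B z) then (1 : ℝ) else 0) := by
    intro S
    rw [N, Finset.card_filter]
    push_cast
    refine Finset.sum_congr rfl (fun z _ => ?_)
    have : (T z ⊆ S ∧ (B z ∩ S).card ≤ 0) ↔ (T z ⊆ S ∧ Disjoint S (B z)) := by
      rw [Nat.le_zero, Finset.card_eq_zero, Finset.disjoint_iff_inter_eq_empty,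
        Finset.inter_comm]
    simp only [this]
  have hR : (N O T B R q : ℝ) =
      ∑ z ∈ O, (if T z ⊆ R ∧ (B z ∩ R).card ≤ q then (1 : ℝ) else 0) := by
    rw [N, Finset.card_filter]
    push_cast
    rfl
  have h1 : ∑ S ∈ R.powerset, p ^ S.card * (1 - p) ^ (R.card - S.card) * (N O T B S 0 : ℝ) =
      ∑ z ∈ O, ∑ S ∈ R.powerset, (if T z ⊆ S ∧ Disjoint S (B z) then
        p ^ S.card * (1 - p) ^ (R.card - S.card) else 0) := by
    rw [Finset.sum_comm]
    refine Finset.sum_congr rfl (fun S _ => ?_)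
    rw [hN, Finset.mul_sum]
    refine Finset.sum_congr rfl (fun z _ => ?_)
    split_ifs <;> simp
  rw [h1, hR, Finset.sum_mul]
  refine Finset.sum_le_sum (fun z hz => ?_)
  split_ifs with hc
  · have h2 := samp p R (T z) (B z ∩ R) hc.1 Finset.inter_subset_right
      ((hO z hz).2.mono_right Finset.inter_subset_left)
    have h3 : ∑ S ∈ R.powerset, (if T z ⊆ S ∧ Disjoint S (B z) then
        p ^ S.card * (1 - p) ^ (R.card - S.card) else 0) =
        p ^ (T z).card * (1 - p) ^ (B z ∩ R).card := by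
      rw [← h2]
      refine Finset.sum_congr rfl (fun S hS => ?_)
      have hSR := Finset.mem_powerset.1 hS
      have : Disjoint S (B z) ↔ Disjoint S (B z ∩ R) := by
        constructor
        · intro h
          exact h.mono_right Finset.inter_subset_left
        · intro h
          rw [Finset.disjoint_left] at h ⊢
          exact fun i hi hiB => h hi (Finset.mem_inter.2 ⟨hiB, hSR hi⟩)
      simp only [this]
    rw [h3, (hO z hz).1, one_mul]
    refine mul_le_mul_of_nonneg_left ?_ (by positivity)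
    refine (pow_lower hq).trans ?_
    exact pow_le_pow_of_le_one (by linarith) (by linarith) hc.2
  · rw [zero_mul]
    refine Finset.sum_nonneg (fun S _ => ?_)
    split_ifs
    · exact mul_nonneg (by positivity) (pow_nonneg (by linarith) _)
    · exact le_rfl

/-- the sampling bound -/
lemma N_bound {ι Z : Type} [DecidableEq ι] (O : Finset Z) (T B : Z → Finset ι)
    (hO : ∀ z ∈ O, (T z).card = 3 ∧ Disjoint (T z) (B z)) {ε b : ℝ} (hε : 0 < ε) (hε1 : ε ≤ 1)
    (hb : 0 ≤ b) (hbd : ∀ S : Finset ι, (N O T B S 0 : ℝ) ≤ b * (S.card : ℝ) ^ (2 + ε))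
    (R : Finset ι) {q : ℕ} (hq : 2 ≤ q) (hqR : q ≤ R.card) :
    (N O T B R q : ℝ) ≤ 8 * Real.exp 7 * b * (q / (q : ℝ) ^ ε) * (R.card : ℝ) ^ (2 + ε) := by
  have hq' : (2 : ℝ) ≤ q := by exact_mod_cast hq
  have hqR' : (q : ℝ) ≤ R.card := by exact_mod_cast hqR
  have hq0 : (0 : ℝ) < q := by linarith
  have h1 := sample_lower O T B hO R hq
  set p : ℝ := 1 / (q : ℝ) with hp
  have hp0 : 0 < p := by rw [hp]; positivity
  have hp1 : p ≤ 1 := by
    rw [hp, div_le_one (by linarith)]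
    linarith
  have h2 : ∑ S ∈ R.powerset, p ^ S.card * (1 - p) ^ (R.card - S.card) * (N O T B S 0 : ℝ) ≤
      ∑ S ∈ R.powerset, b * (p ^ S.card * (1 - p) ^ (R.card - S.card) *
        (S.card : ℝ) ^ (2 + ε)) := by
    refine Finset.sum_le_sum (fun S _ => ?_)
    have h3 : 0 ≤ p ^ S.card * (1 - p) ^ (R.card - S.card) :=
      mul_nonneg (by positivity) (pow_nonneg (by linarith) _)
    calc _ ≤ p ^ S.card * (1 - p) ^ (R.card - S.card) * (b * (S.card : ℝ) ^ (2 + ε)) :=
          mul_le_mul_of_nonneg_left (hbd S) h3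
      _ = _ := by ring
  rw [← Finset.mul_sum] at h2
  have h3 : (1 : ℝ) ≤ R.card * p := by
    rw [hp, mul_one_div, le_div_iff₀ hq0, one_mul]
    exact hqR'
  have h4 := mul_le_mul_of_nonneg_left (moment R p ε hp0 hp1 hε hε1 h3) hb
  have h5 := h1.trans (h2.trans h4)
  have h6 : ((R.card : ℝ) * p) ^ (2 + ε) = (R.card : ℝ) ^ (2 + ε) * (p ^ 2 * (1 / (q : ℝ) ^ ε)) := by
    rw [Real.mul_rpow (by positivity) hp0.le, Real.rpow_add hp0, Real.rpow_two, hp,
      Real.div_rpow zero_le_one hq0.le, Real.one_rpow]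
  rw [h6] at h5
  have h7 : (N O T B R q : ℝ) * (p ^ 3 * (1 / 8)) ≤
      (8 * Real.exp 7 * b * (q / (q : ℝ) ^ ε) * (R.card : ℝ) ^ (2 + ε)) * (p ^ 3 * (1 / 8)) := by
    refine h5.trans (le_of_eq ?_)
    have h8 : (q : ℝ) * p = 1 := by rw [hp]; field_simp
    calc b * (Real.exp 7 * ((R.card : ℝ) ^ (2 + ε) * (p ^ 2 * (1 / (q : ℝ) ^ ε))))
        = b * (Real.exp 7 * ((R.card : ℝ) ^ (2 + ε) * ((q * p) * p ^ 2 * (1 / (q : ℝ) ^ ε)))) := by
          rw [h8, one_mul]
      _ = _ := by ring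
  exact le_of_mul_le_mul_right h7 (by positivity)

open Filter Pool.Agent.Helper57.Env in
/-- Packet H. -/
theorem stmtRec : StmtRec := by
  classical
  intro A E D ε hA hε
  by_cases hε1 : ε ≤ 1
  swap
  · -- trivial case
    refine ⟨A, ?_⟩
    intro ι Z _ O T B hO hTB hcube hrec R
    have h1 : {z | z ∈ O ∧ T z ⊆ R ∧ {l | l ∈ B z ∧ l ∈ R}.ncard = 0}.ncard ≤
        {z | z ∈ O ∧ T z ⊆ R}.ncard :=
      Set.ncard_le_ncard (fun z hz => ⟨hz.1, hz.2.1⟩) (hO.subset (fun z hz => hz.1))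
    have h2 : ({z | z ∈ O ∧ T z ⊆ R ∧ {l | l ∈ B z ∧ l ∈ R}.ncard = 0}.ncard : ℝ) ≤
        A * (R.card : ℝ) ^ 3 := le_trans (by exact_mod_cast h1) (hcube R)
    refine h2.trans (mul_le_mul_of_nonneg_left ?_ hA)
    rcases Nat.eq_zero_or_pos R.card with h0 | h0
    · rw [h0]
      norm_num
      positivity
    · have h3 : (1 : ℝ) ≤ R.card := by exact_mod_cast h0
      rw [← Real.rpow_natCast]
      exact Real.rpow_le_rpow_of_exponent_le h3 (by push_cast; linarith)
  -- the scales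
  have hnext : ∀ n : ℕ, ∃ n' : ℕ, n < n' ∧ 2 ≤ n' ∧
      2 * ((E : ℝ) + 1) * (A * (D * n + 1) * (D + 1) * (8 * Real.exp 7)) ≤ (n' : ℝ) ^ ε := by
    intro n
    have h1 := (tendsto_rpow_atTop hε).comp (tendsto_natCast_atTop_atTop (R := ℝ))
    obtain ⟨n', h, h'⟩ := ((h1.eventually_ge_atTop
      (2 * ((E : ℝ) + 1) * (A * (D * n + 1) * (D + 1) * (8 * Real.exp 7)))).and
      (eventually_ge_atTop (n + 2))).exists
    exact ⟨n', by omega, by omega, h⟩
  choose g hg1 hg2 hg3 using hnext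
  obtain ⟨ξ, hξ0, hξs⟩ : ∃ ξ : ℕ → ℕ, ξ 0 = 1 ∧ ∀ m, ξ (m + 1) = g (ξ m) :=
    ⟨fun m => Nat.rec 1 (fun _ x => g x) m, rfl, fun m => rfl⟩
  have hmono : StrictMono ξ := strictMono_nat_of_lt_succ (fun m => by rw [hξs]; exact hg1 _)
  set c : ℕ → ℝ := fun m => A * (D * ξ m + 1) * (D + 1) * A + A * 2 ^ (D * ξ m) with hc
  have hc0 : ∀ m, 0 ≤ c m := fun m => by rw [hc]; positivity
  set C2 : ℝ := ∑ m ∈ Finset.range (E + 1), c m with hC2
  have hC20 : 0 ≤ C2 := Finset.sum_nonneg (fun m _ => hc0 m)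
  refine ⟨2 * C2, ?_⟩
  intro ι Z _ O T B hO hTB hcube hrec
  set Of : Finset Z := hO.toFinset with hOf
  have hTB' : ∀ z ∈ Of, (T z).card = 3 ∧ Disjoint (T z) (B z) := fun z hz =>
    hTB z (hO.mem_toFinset.1 hz)
  have hcf : ∀ (z : Z) (R : Finset ι), {l | l ∈ B z ∧ l ∈ R}.ncard = (B z ∩ R).card := by
    intro z R
    rw [← Set.ncard_coe_finset]
    congr 1
    ext l
    simp
  have hN : ∀ (R : Finset ι) (k : ℕ),
      {z | z ∈ O ∧ T z ⊆ R ∧ {l | l ∈ B z ∧ l ∈ R}.ncard ≤ k}.ncard = N Of T B R k := by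
    intro R k
    rw [N, ← Set.ncard_coe_finset]
    congr 1
    ext z
    simp [hOf, hcf]
  have hN0 : ∀ (R : Finset ι),
      {z | z ∈ O ∧ T z ⊆ R ∧ {l | l ∈ B z ∧ l ∈ R}.ncard = 0}.ncard = N Of T B R 0 := by
    intro R
    rw [← hN R 0]
    simp only [Nat.le_zero]
  have hNcube : ∀ (R : Finset ι) (k : ℕ), (N Of T B R k : ℝ) ≤ A * (R.card : ℝ) ^ 3 := by
    intro R k
    rw [← hN R k]
    refine le_trans ?_ (hcube R)
    have h1 : {z | z ∈ O ∧ T z ⊆ R ∧ {l | l ∈ B z ∧ l ∈ R}.ncard ≤ k}.ncard ≤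
        {z | z ∈ O ∧ T z ⊆ R}.ncard :=
      Set.ncard_le_ncard (fun z hz => ⟨hz.1, hz.2.1⟩) (hO.subset (fun z hz => hz.1))
    exact_mod_cast h1
  have hrec' : ∀ R : Finset ι, (N Of T B R 0 : ℝ) ≤ ∑ m ∈ Finset.range (E + 1),
      (A * (D * ξ m + 1) / ξ (m + 1) * (N Of T B R (D * ξ m + ξ (m + 1)) : ℝ) +
        A * 2 ^ (D * ξ m) * (R.card : ℝ) ^ 2) := by
    intro R
    have h1 := hrec ξ hmono hξ0.ge R
    simp only [hN, hN0] at h1
    exact h1
  have key : ∀ b : ℝ, 0 ≤ b → (∀ S : Finset ι, (N Of T B S 0 : ℝ) ≤ b * (S.card : ℝ) ^ (2 + ε)) →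
      ∀ R : Finset ι, 0 < R.card → (N Of T B R 0 : ℝ) ≤ (b / 2 + C2) * (R.card : ℝ) ^ (2 + ε) := by
    intro b hb hbd R hR
    have hR1 : (1 : ℝ) ≤ R.card := by exact_mod_cast hR
    have hr2 : (R.card : ℝ) ^ 2 ≤ (R.card : ℝ) ^ (2 + ε) := by
      rw [← Real.rpow_natCast]
      exact Real.rpow_le_rpow_of_exponent_le hR1 (by push_cast; linarith)
    have hterm : ∀ m ∈ Finset.range (E + 1),
        (A * (D * ξ m + 1) / ξ (m + 1) * (N Of T B R (D * ξ m + ξ (m + 1)) : ℝ) +
          A * 2 ^ (D * ξ m) * (R.card : ℝ) ^ 2) ≤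
        b / (2 * ((E : ℝ) + 1)) * (R.card : ℝ) ^ (2 + ε) + c m * (R.card : ℝ) ^ (2 + ε) := by
      intro m _
      set x : ℕ := ξ m with hx
      set y : ℕ := ξ (m + 1) with hy
      have hxy : x < y := hmono (Nat.lt_succ_self m)
      have hy2 : 2 ≤ y := by rw [hy, hξs]; exact hg2 _
      have hy3 : 2 * ((E : ℝ) + 1) * (A * (D * x + 1) * (D + 1) * (8 * Real.exp 7)) ≤
          (y : ℝ) ^ ε := by rw [hy, hξs]; exact hg3 _
      have hy0 : (0 : ℝ) < y := by
        have : (2 : ℝ) ≤ y := by exact_mod_cast hy2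
        linarith
      have hye : 0 < (y : ℝ) ^ ε := Real.rpow_pos_of_pos hy0 ε
      set q : ℕ := D * x + y with hq
      have hq2 : 2 ≤ q := by omega
      have hqy : (y : ℝ) ≤ q := by
        have : y ≤ q := by omega
        exact_mod_cast this
      have hqle : (q : ℝ) ≤ (D + 1) * y := by
        have h1 : D * x ≤ D * y := Nat.mul_le_mul_left _ hxy.le
        have h2 : q ≤ (D + 1) * y := by rw [add_mul, one_mul]; omega
        exact_mod_cast h2
      have hE : (0 : ℝ) < 2 * ((E : ℝ) + 1) := by positivity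
      have hAx : 0 ≤ A * (D * x + 1) := by positivity
      have hfirst : A * (D * x + 1) / y * (N Of T B R q : ℝ) ≤
          b / (2 * ((E : ℝ) + 1)) * (R.card : ℝ) ^ (2 + ε) +
            A * (D * x + 1) * (D + 1) * A * (R.card : ℝ) ^ 2 := by
        rcases le_or_gt q R.card with hqR | hqR
        · have h1 := N_bound Of T B hTB' hε hε1 hb hbd R hq2 hqR
          have h2 : (q : ℝ) / (q : ℝ) ^ ε ≤ ((D + 1) * y) / (y : ℝ) ^ ε :=
            div_le_div₀ (by positivity) hqle hye (Real.rpow_le_rpow hy0.le hqy hε.le)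
          have h3 : A * (D * x + 1) / y * (N Of T B R q : ℝ) ≤
              A * (D * x + 1) / y * (8 * Real.exp 7 * b * (((D + 1) * y) / (y : ℝ) ^ ε) *
                (R.card : ℝ) ^ (2 + ε)) := by
            refine mul_le_mul_of_nonneg_left (h1.trans ?_) (by positivity)
            refine mul_le_mul_of_nonneg_right ?_ (by positivity)
            exact mul_le_mul_of_nonneg_left h2 (by positivity)
          have h4 : A * (D * x + 1) / y * (8 * Real.exp 7 * b * (((D + 1) * y) / (y : ℝ) ^ ε) *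
                (R.card : ℝ) ^ (2 + ε)) =
              (A * (D * x + 1) * (D + 1) * (8 * Real.exp 7)) / (y : ℝ) ^ ε *
                (b * (R.card : ℝ) ^ (2 + ε)) := by
            field_simp
          have h5 : (A * (D * x + 1) * (D + 1) * (8 * Real.exp 7)) / (y : ℝ) ^ ε ≤
              1 / (2 * ((E : ℝ) + 1)) := by
            rw [div_le_div_iff₀ hye hE, one_mul]
            linarith
          have h6 : 0 ≤ A * (D * x + 1) * (D + 1) * A * (R.card : ℝ) ^ 2 := by positivity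
          calc _ ≤ _ := h3
            _ = _ := h4
            _ ≤ 1 / (2 * ((E : ℝ) + 1)) * (b * (R.card : ℝ) ^ (2 + ε)) :=
                mul_le_mul_of_nonneg_right h5 (by positivity)
            _ = b / (2 * ((E : ℝ) + 1)) * (R.card : ℝ) ^ (2 + ε) := by ring
            _ ≤ _ := by linarith
        · have h1 := hNcube R q
          have h2 : (R.card : ℝ) ≤ q := by exact_mod_cast hqR.le
          have h3 : A * (R.card : ℝ) ^ 3 ≤ A * (((D + 1) * y) * (R.card : ℝ) ^ 2) := by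
            refine mul_le_mul_of_nonneg_left ?_ hA
            have : (R.card : ℝ) ^ 3 = R.card * (R.card : ℝ) ^ 2 := by ring
            rw [this]
            exact mul_le_mul_of_nonneg_right (h2.trans hqle) (by positivity)
          have h4 : A * (D * x + 1) / y * (N Of T B R q : ℝ) ≤
              A * (D * x + 1) / y * (A * (((D + 1) * y) * (R.card : ℝ) ^ 2)) :=
            mul_le_mul_of_nonneg_left (h1.trans h3) (by positivity)
          have h5 : A * (D * x + 1) / y * (A * (((D + 1) * y) * (R.card : ℝ) ^ 2)) =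
              A * (D * x + 1) * (D + 1) * A * (R.card : ℝ) ^ 2 := by
            field_simp
          have h6 : 0 ≤ b / (2 * ((E : ℝ) + 1)) * (R.card : ℝ) ^ (2 + ε) := by positivity
          linarith
      have hcm : c m * (R.card : ℝ) ^ 2 ≤ c m * (R.card : ℝ) ^ (2 + ε) :=
        mul_le_mul_of_nonneg_left hr2 (hc0 m)
      have hcm' : c m * (R.card : ℝ) ^ 2 = A * (D * x + 1) * (D + 1) * A * (R.card : ℝ) ^ 2 +
          A * 2 ^ (D * x) * (R.card : ℝ) ^ 2 := by
        rw [hc]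
        ring
      linarith
    refine (hrec' R).trans ((Finset.sum_le_sum hterm).trans (le_of_eq ?_))
    rw [Finset.sum_add_distrib, Finset.sum_const, Finset.card_range, ← Finset.sum_mul, ← hC2,
      nsmul_eq_mul]
    push_cast
    have hE : ((E : ℝ) + 1) ≠ 0 := by positivity
    field_simp
  -- the largest ratio
  obtain ⟨Rm, hRm⟩ := Finite.exists_max
    (fun R : Finset ι => (N Of T B R 0 : ℝ) / (R.card : ℝ) ^ (2 + ε))
  set b : ℝ := (N Of T B Rm 0 : ℝ) / (Rm.card : ℝ) ^ (2 + ε) with hb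
  have hb0 : 0 ≤ b := by rw [hb]; positivity
  have hzero : ∀ R : Finset ι, R.card = 0 → (N Of T B R 0 : ℝ) = 0 := by
    intro R hR
    have h1 := hNcube R 0
    rw [hR] at h1
    norm_num at h1
    have h2 : (N Of T B R 0 : ℝ) ≥ 0 := by positivity
    have h3 : N Of T B R 0 = 0 := by
      by_contra h
      have h4 : 1 ≤ N Of T B R 0 := Nat.one_le_iff_ne_zero.2 h
      have h5 : (1 : ℝ) ≤ (N Of T B R 0 : ℝ) := by exact_mod_cast h4
      have h6 := hNcube R 0
      rw [hR] at h6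
      norm_num at h6
      linarith
    rw [h3]
    norm_num
  have hbd : ∀ S : Finset ι, (N Of T B S 0 : ℝ) ≤ b * (S.card : ℝ) ^ (2 + ε) := by
    intro S
    rcases Nat.eq_zero_or_pos S.card with h0 | h0
    · rw [hzero S h0]
      positivity
    · have h1 := hRm S
      have h2 : (0 : ℝ) < (S.card : ℝ) ^ (2 + ε) :=
        Real.rpow_pos_of_pos (by exact_mod_cast h0) _
      rwa [div_le_iff₀ h2] at h1
  have hb2 : b ≤ 2 * C2 := by
    rcases Nat.eq_zero_or_pos Rm.card with h0 | h0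
    · rw [hb, hzero Rm h0, zero_div]
      positivity
    · have h1 := key b hb0 hbd Rm h0
      have h2 : (0 : ℝ) < (Rm.card : ℝ) ^ (2 + ε) :=
        Real.rpow_pos_of_pos (by exact_mod_cast h0) _
      rw [← div_le_iff₀ h2, ← hb] at h1
      linarith
  intro R
  rw [hN0]
  exact (hbd R).trans (mul_le_mul_of_nonneg_right hb2 (by positivity))

end Pool.Agent.Helper77.Env
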